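import Pool.Agent.helper37.F2.Spec2

set_option autoImplicit false

open scoped BigOperators

namespace Pool.Agent.F2T

open Pool.Agent.helper23.TH Pool.Agent.F2 Finset

theorem TB_comb (P : ℕ → Prop) (t : ℕ) [DecidablePred (fun k : Fin (t - 1) => P (k.1 + 1))]
    [DecidablePred (fun i : Fin t => P i.1 ∨ P (i.1 + 1))] (ht : 1 ≤ t) (h : ∃ i, i ≤ t ∧ P i) :
    (univ.filter (fun k : Fin (t - 1) => P (k.1 + 1))).card + 1 ≤
      (univ.filter (fun i : Fin t => P i.1 ∨ P (i.1 + 1))).card := by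
  obtain ⟨i, hi, hP⟩ := h
  obtain ⟨i0, h1, h2, h3⟩ : ∃ i0, i0 ≤ i ∧ P i0 ∧ ∀ j, j < i0 → ¬ P j := by
    classical
    have hex : ∃ i, P i := ⟨i, hP⟩
    exact ⟨Nat.find hex, Nat.find_min' hex hP, Nat.find_spec hex, fun j hj => Nat.find_min hex hj⟩
  have hf : Function.Injective (fun k : Fin (t - 1) => (⟨k.1 + 1, by have := k.2; omega⟩ : Fin t)) := by
    intro a b hab
    have := congrArg Fin.val hab
    exact Fin.ext (by simpa using this)
  rw [← card_image_of_injective _ hf]
  have h4 : (⟨i0 - 1, by omega⟩ : Fin t) ∉ (univ.filter (fun k : Fin (t - 1) => P (k.1 + 1))).image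
      (fun k : Fin (t - 1) => (⟨k.1 + 1, by have := k.2; omega⟩ : Fin t)) := by
    intro h5
    rw [mem_image] at h5
    obtain ⟨k, hk, hk2⟩ := h5
    have h6 : k.1 + 1 = i0 - 1 := congrArg Fin.val hk2
    exact h3 (k.1 + 1) (by omega) (mem_filter.mp hk).2
  rw [← card_insert_of_notMem h4]
  apply card_le_card
  intro x hx
  rw [mem_insert] at hx
  rcases hx with rfl | hx
  · rw [mem_filter]
    refine ⟨mem_univ _, ?_⟩
    rcases Nat.eq_zero_or_pos i0 with h0 | h0
    · left
      change P (i0 - 1)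
      rw [h0] at h2 ⊢
      exact h2
    · right
      change P (i0 - 1 + 1)
      rw [Nat.sub_add_cancel h0]
      exact h2
  · rw [mem_image] at hx
    obtain ⟨k, hk, rfl⟩ := hx
    rw [mem_filter]
    exact ⟨mem_univ _, Or.inl (mem_filter.mp hk).2⟩

theorem TB_ar (v E t a b : ℕ) (m : Prop) [Decidable m] (ht : 1 ≤ t) (hk : a ≤ t - 1)
    (h : (m → a + 1 ≤ b)) (h' : a = 0 ∨ a + 1 ≤ b) :
    (v + E * t) * a + v * (if m then 1 else 0) ≤ (v + E * (t - 1)) * b := by
  obtain ⟨u, rfl⟩ : ∃ u, t = u + 1 := ⟨t - 1, by omega⟩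
  rw [Nat.add_sub_cancel] at hk ⊢
  by_cases hb : a + 1 ≤ b
  · obtain ⟨c, rfl⟩ := Nat.exists_eq_add_of_le hb
    have h1 : v * (if m then 1 else 0) ≤ v := by
      split_ifs <;> simp
    have h2 : E * a ≤ E * u := Nat.mul_le_mul_left _ hk
    nlinarith [Nat.zero_le ((v + E * u) * c)]
  · have h1 : a = 0 := by
      rcases h' with h1 | h1
      · exact h1
      · exact absurd h1 hb
    have h2 : ¬ m := fun hm => hb (h hm)
    rw [if_neg h2, h1]
    simp

theorem TB_main (T : RT) (t : ℕ) (hB : T.Bal) (ht : 1 ≤ t) (S' : Finset (T.I ⊕ (T.E × Fin (t - 1)))) :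
    (Fintype.card T.I + Fintype.card T.E * t) * S'.card ≤
      (Fintype.card T.I + Fintype.card T.E * (t - 1)) * (T.Lt t).es S' := by
  classical
  -- the places
  let P : T.E → ℕ → Prop := fun e i => ∃ x ∈ S', T.pt t e i = .inr x
  let S : Finset T.I := univ.filter fun w => (Sum.inl w : T.I ⊕ (T.E × Fin (t - 1))) ∈ S'
  let k : T.E → ℕ := fun e => (univ.filter (fun k : Fin (t - 1) => P e (k.1 + 1))).card
  let n : T.E → ℕ := fun e => (univ.filter (fun i : Fin t => P e i.1 ∨ P e (i.1 + 1))).card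
  have hS : S'.card = S.card + ∑ e, k e := by
    have h1 : S' = univ.filter (fun x => x ∈ S') := by
      ext x
      simp
    rw [h1, card_filter, Fintype.sum_sum_type, Fintype.sum_prod_type]
    congr 1
    · rw [card_filter]
    · refine sum_congr rfl fun e _ => ?_
      change _ = (univ.filter (fun k : Fin (t - 1) => P e (k.1 + 1))).card
      rw [card_filter]
      refine sum_congr rfl fun j _ => ?_
      have h2 : (Sum.inr (e, j) : T.I ⊕ (T.E × Fin (t - 1))) ∈ S' ↔ P e (j.1 + 1) := by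
        have h3 := T.pt_mid t e (j.1 + 1) (by have := j.2; omega)
        have h4 : (⟨j.1 + 1 - 1, by have := j.2; omega⟩ : Fin (t - 1)) = j := Fin.ext (by simp)
        rw [h4] at h3
        constructor
        · intro h
          exact ⟨_, h, h3⟩
        · rintro ⟨x, hx, h5⟩
          rw [h3] at h5
          rw [Sum.inr.inj h5]
          exact hx
      by_cases h3 : P e (j.1 + 1)
      · rw [if_pos h3, if_pos (h2.mpr h3)]
      · rw [if_neg h3, if_neg (fun h => h3 (h2.mp h))]
  have hE : (T.Lt t).es S' = S.card + ∑ e, n e := by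
    unfold RT.es
    rw [card_filter]
    change ∑ x : T.I ⊕ (T.E × Fin t), _ = _
    rw [Fintype.sum_sum_type, Fintype.sum_prod_type]
    congr 1
    · change _ = (univ.filter fun w => (Sum.inl w : T.I ⊕ (T.E × Fin (t - 1))) ∈ S').card
      rw [card_filter]
      refine sum_congr rfl fun w _ => ?_
      by_cases h3 : (Sum.inl w : T.I ⊕ (T.E × Fin (t - 1))) ∈ S'
      · rw [if_pos h3]
        exact if_pos ⟨_, h3, Or.inr rfl⟩
      · rw [if_neg h3]
        refine if_neg ?_
        rintro ⟨x, hx, h4 | h4⟩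
        · cases h4
        · have h5 := Sum.inr.inj h4
          rw [← h5] at hx
          exact h3 hx
    · refine sum_congr rfl fun e _ => ?_
      change _ = (univ.filter (fun i : Fin t => P e i.1 ∨ P e (i.1 + 1))).card
      rw [card_filter]
      refine sum_congr rfl fun i _ => ?_
      by_cases h3 : P e i.1 ∨ P e (i.1 + 1)
      · rw [if_pos h3]
        refine if_pos ?_
        rcases h3 with ⟨x, hx, h4⟩ | ⟨x, hx, h4⟩
        · exact ⟨x, hx, Or.inl h4⟩
        · exact ⟨x, hx, Or.inr h4⟩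
      · rw [if_neg h3]
        refine if_neg ?_
        rintro ⟨x, hx, h4 | h4⟩
        · exact h3 (Or.inl ⟨x, hx, h4⟩)
        · exact h3 (Or.inr ⟨x, hx, h4⟩)
  rw [hS, hE]
  have hk : ∀ e, k e ≤ t - 1 := by
    intro e
    have := card_filter_le (univ : Finset (Fin (t - 1))) (fun k : Fin (t - 1) => P e (k.1 + 1))
    rw [card_univ, Fintype.card_fin] at this
    exact this
  have hm : ∀ e, (∃ x ∈ S, (T.ed e).1 = Sum.inr x ∨ (T.ed e).2 = Sum.inr x) → k e + 1 ≤ n e := by
    rintro e ⟨x, hx, h | h⟩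
    · refine TB_comb (P e) t ht ⟨0, by omega, _, (mem_filter.mp hx).2, ?_⟩
      rw [T.pt_zero, h]
      rfl
    · refine TB_comb (P e) t ht ⟨t, le_rfl, _, (mem_filter.mp hx).2, ?_⟩
      rw [T.pt_last t e ht, h]
      rfl
  have hk0 : ∀ e, k e = 0 ∨ k e + 1 ≤ n e := by
    intro e
    rcases Nat.eq_zero_or_pos (k e) with h | h
    · exact Or.inl h
    · right
      obtain ⟨j, hj⟩ := card_pos.mp h
      exact TB_comb (P e) t ht ⟨j.1 + 1, by have := j.2; omega, (mem_filter.mp hj).2⟩
  have h1 : ∀ e, (Fintype.card T.I + Fintype.card T.E * t) * k e + Fintype.card T.I *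
      (if (∃ x ∈ S, (T.ed e).1 = Sum.inr x ∨ (T.ed e).2 = Sum.inr x) then 1 else 0) ≤
      (Fintype.card T.I + Fintype.card T.E * (t - 1)) * n e := fun e =>
    TB_ar _ _ t (k e) (n e) _ ht (hk e) (hm e) (hk0 e)
  have h2 := Finset.sum_le_sum fun e (_ : e ∈ (univ : Finset T.E)) => h1 e
  rw [Finset.sum_add_distrib, ← Finset.mul_sum, ← Finset.mul_sum, ← Finset.mul_sum, ← card_filter] at h2
  have h3 := hB S
  have h4 : T.es S = (univ.filter fun e : T.E => ∃ x ∈ S, (T.ed e).1 = Sum.inr x ∨ (T.ed e).2 = Sum.inr x).card := by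
    rfl
  rw [← h4] at h2
  generalize Fintype.card T.I = v at *
  generalize Fintype.card T.E = E at *
  generalize T.es S = es at *
  generalize ∑ e, k e = sk at *
  generalize ∑ e, n e = sn at *
  generalize S.card = s at *
  obtain ⟨u, rfl⟩ : ∃ u, t = u + 1 := ⟨t - 1, by omega⟩
  rw [Nat.add_sub_cancel] at h2 ⊢
  nlinarith

/-- TB -/
theorem TB : TB_stmt := by
  intro T t hB ht S'
  have h := TB_main T t hB ht S'
  have h1 : Fintype.card (T.Lt t).E = Fintype.card T.I + Fintype.card T.E * t := by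
    change Fintype.card (T.I ⊕ (T.E × Fin t)) = _
    rw [Fintype.card_sum, Fintype.card_prod, Fintype.card_fin]
  have h2 : Fintype.card (T.Lt t).I = Fintype.card T.I + Fintype.card T.E * (t - 1) := by
    change Fintype.card (T.I ⊕ (T.E × Fin (t - 1))) = _
    rw [Fintype.card_sum, Fintype.card_prod, Fintype.card_fin]
  rw [h1, h2]
  exact h

end Pool.Agent.F2T
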